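import Mathlib

/-!
A free quadruple for set mappings on a set of cardinality at least `ℵ₃`.
-/

namespace Pool.Agent.Helper455.Bez

open Cardinal

lemma exists_avoid {I : Type} {ι : Type} (J : Set I) (κ : Cardinal.{0}) (hκ : ℵ₀ ≤ κ)
    (hι : #ι ≤ κ) (hJ : κ < #J) (B : ι → Finset I) : ∃ x ∈ J, ∀ t : ι, x ∉ B t := by
  by_contra hcon
  push Not at hcon
  have hsub : J ⊆ ⋃ t : ι, (B t : Set I) := by
    intro x hx
    obtain ⟨t, ht⟩ := hcon x hx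
    exact Set.mem_iUnion.2 ⟨t, ht⟩
  have h1 : #J ≤ #(⋃ t : ι, (B t : Set I)) := Cardinal.mk_le_mk_of_subset hsub
  have h2 : #(⋃ t : ι, (B t : Set I)) ≤ Cardinal.sum fun t : ι => #(B t : Set I) :=
    Cardinal.mk_iUnion_le_sum_mk
  have h3 : (Cardinal.sum fun t : ι => #(B t : Set I)) ≤ Cardinal.sum fun _ : ι => ℵ₀ := by
    apply Cardinal.sum_le_sum
    intro t
    exact (Cardinal.lt_aleph0_of_finite _).le
  have h4 : (Cardinal.sum fun _ : ι => ℵ₀) = #ι * ℵ₀ := by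
    rw [Cardinal.sum_const']
  have h5 : #ι * ℵ₀ ≤ κ := by
    calc #ι * ℵ₀ ≤ κ * κ := mul_le_mul' hι hκ
      _ = κ := Cardinal.mul_eq_self hκ
  exact absurd (hJ.trans_le (h1.trans (h2.trans (h3.trans (h4.le.trans h5))))) (lt_irrefl _)

/-- The index set. -/
noncomputable def Ind : Type := (aleph 3).out

lemma mk_Ind : #Ind = aleph 3 := Cardinal.mk_out _

theorem free4 (B1 B2 B3 B4 : Ind → Ind → Ind → Finset Ind) :
    ∃ i j k l : Ind, l ∉ B4 i j k ∧ k ∉ B3 i j l ∧ j ∉ B2 i k l ∧ i ∉ B1 j k l := by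
  have hsub : ∀ o : Ordinal.{0}, o ≤ 3 → ∃ J : Set Ind, #J = aleph o := by
    intro o ho
    apply Cardinal.le_mk_iff_exists_set.1
    rw [mk_Ind]
    exact Cardinal.aleph_le_aleph.2 ho
  obtain ⟨J1, hJ1⟩ := hsub 0 (by norm_num)
  obtain ⟨J2, hJ2⟩ := hsub 1 (by norm_num)
  obtain ⟨J3, hJ3⟩ := hsub 2 (by norm_num)
  obtain ⟨J4, hJ4⟩ := hsub 3 le_rfl
  have a0 : ∀ o : Ordinal.{0}, ℵ₀ ≤ aleph o := fun o => Cardinal.aleph0_le_aleph o
  have a01 : aleph 0 ≤ aleph 1 := Cardinal.aleph_le_aleph.2 (by norm_num)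
  have a12 : aleph 1 ≤ aleph 2 := Cardinal.aleph_le_aleph.2 (by norm_num)
  obtain ⟨l, hl4, hl⟩ := exists_avoid (ι := J1 × J2 × J3) J4 (aleph 2) (a0 _)
    (by
      rw [Cardinal.mk_prod, Cardinal.mk_prod, Cardinal.lift_id, Cardinal.lift_id,
        Cardinal.lift_id, Cardinal.lift_id, hJ1, hJ2, hJ3]
      calc aleph 0 * (aleph 1 * aleph 2) ≤ aleph 2 * (aleph 2 * aleph 2) :=
            mul_le_mul' (a01.trans a12) (mul_le_mul' a12 le_rfl)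
        _ = aleph 2 := by rw [Cardinal.mul_eq_self (a0 _), Cardinal.mul_eq_self (a0 _)])
    (by rw [hJ4]; exact Cardinal.aleph_lt_aleph.2 (by norm_num))
    (fun t => B4 t.1 t.2.1 t.2.2)
  obtain ⟨k, hk3, hk⟩ := exists_avoid (ι := J1 × J2) J3 (aleph 1) (a0 _)
    (by
      rw [Cardinal.mk_prod, Cardinal.lift_id, Cardinal.lift_id, hJ1, hJ2]
      calc aleph 0 * aleph 1 ≤ aleph 1 * aleph 1 := mul_le_mul' a01 le_rfl
        _ = aleph 1 := by rw [Cardinal.mul_eq_self (a0 _)])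
    (by rw [hJ3]; exact Cardinal.aleph_lt_aleph.2 (by norm_num))
    (fun t => B3 t.1 t.2 l)
  obtain ⟨j, hj2, hj⟩ := exists_avoid (ι := J1) J2 (aleph 0) (a0 _)
    (by rw [hJ1])
    (by rw [hJ2]; exact Cardinal.aleph_lt_aleph.2 (by norm_num))
    (fun t => B2 t k l)
  have hinf : J1.Infinite := by
    rw [← Set.infinite_coe_iff, Cardinal.infinite_iff, hJ1]
    exact a0 _
  obtain ⟨i, hi1, hi⟩ := hinf.exists_notMem_finset (B1 j k l)
  exact ⟨i, j, k, l, hl (⟨i, hi1⟩, ⟨j, hj2⟩, ⟨k, hk3⟩), hk (⟨i, hi1⟩, ⟨j, hj2⟩), hj ⟨i, hi1⟩, hi⟩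

end Pool.Agent.Helper455.Bez
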