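import Pool.Agent.Helper455.Bez.Gen

/-!
The chain semiring of values in the lexicographic square of the integers.
-/

namespace Pool.Agent.Helper455.Bez

open Tropical

/-- Values in the lexicographic square of the integers, with infinity, as a semiring with
addition = minimum and multiplication = addition. -/
abbrev V : Type := Tropical (WithTop (ℤ ×ₗ ℤ))

noncomputable section

/-- Shortcut instance (keeps the size of instance terms small). -/
instance instCommSemiringV : CommSemiring V := Tropical.instCommSemiring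

/-- The finite value `(k, l)`. -/
def m (k l : ℤ) : V := trop ((toLex (k, l) : ℤ ×ₗ ℤ) : WithTop (ℤ ×ₗ ℤ))

lemma zero_def : (0 : V) = trop (⊤ : WithTop (ℤ ×ₗ ℤ)) := rfl

lemma m_ne_zero (k l : ℤ) : m k l ≠ 0 := by
  intro h
  have := Tropical.trop_injective h
  exact WithTop.coe_ne_top this

lemma m_inj {k l k' l' : ℤ} : m k l = m k' l' ↔ k = k' ∧ l = l' := by
  constructor
  · intro h
    have h1 := Tropical.trop_injective h
    have h2 := WithTop.coe_injective h1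
    have h3 := toLex.injective h2
    exact Prod.mk.inj h3
  · rintro ⟨rfl, rfl⟩; rfl

lemma one_def : (1 : V) = m 0 0 := rfl

lemma m_mul (k l k' l' : ℤ) : m k l * m k' l' = m (k + k') (l + l') := rfl

lemma cases (v : V) : v = 0 ∨ ∃ k l, v = m k l := by
  induction v using Tropical.tropRec with
  | h v =>
    induction v using WithTop.recTopCoe with
    | top => exact Or.inl rfl
    | coe x => exact Or.inr ⟨(ofLex x).1, (ofLex x).2, rfl⟩

lemma m_add_of_le {k l k' l' : ℤ} (h : k < k' ∨ (k = k' ∧ l ≤ l')) : m k l + m k' l' = m k l := by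
  have h1 : (toLex (k, l) : ℤ ×ₗ ℤ) ≤ toLex (k', l') := Prod.Lex.toLex_le_toLex.2 h
  have h2 : ((toLex (k, l) : ℤ ×ₗ ℤ) : WithTop (ℤ ×ₗ ℤ)) ≤ (toLex (k', l') : ℤ ×ₗ ℤ) :=
    WithTop.coe_le_coe.2 h1
  show trop _ + trop _ = trop _
  rw [Tropical.trop_add_def]
  simp [h2]

lemma m_add_iff {k l k' l' : ℤ} : m k' l' + m k l = m k l ↔ k < k' ∨ (k = k' ∧ l ≤ l') := by
  constructor
  · intro h
    by_contra hc
    have h1 : k' < k ∨ (k' = k ∧ l' ≤ l) := by omega
    rw [m_add_of_le h1, m_inj] at h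
    omega
  · intro h
    rw [add_comm, m_add_of_le h]

lemma add_self' (v : V) : v + v = v := Tropical.add_self v

lemma add_cases (a b : V) : a + b = a ∨ a + b = b := by
  rcases cases a with rfl | ⟨k, l, rfl⟩
  · right; rw [zero_add]
  rcases cases b with rfl | ⟨k', l', rfl⟩
  · left; rw [add_zero]
  by_cases h : k < k' ∨ (k = k' ∧ l ≤ l')
  · left; exact m_add_of_le h
  · right; rw [add_comm]; apply m_add_of_le; omega

/-- The nonnegative values. -/
def Vp : Subsemiring V where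
  carrier := {v | v = 0 ∨ ∃ k l, v = m k l ∧ (0 < k ∨ (k = 0 ∧ 0 ≤ l))}
  mul_mem' := by
    rintro a b (rfl | ⟨k, l, rfl, h⟩) (rfl | ⟨k', l', rfl, h'⟩)
    · left; simp
    · left; simp
    · left; simp
    · right; exact ⟨k + k', l + l', m_mul _ _ _ _, by omega⟩
  one_mem' := Or.inr ⟨0, 0, rfl, by omega⟩
  add_mem' := by
    intro a b ha hb
    rcases add_cases a b with h | h <;> rw [h] <;> assumption
  zero_mem' := Or.inl rfl

/-- The chain generated by `(1, 1)`. -/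
def A1 : Subsemiring V where
  carrier := {v | v = 0 ∨ ∃ k, v = m k k ∧ 0 ≤ k}
  mul_mem' := by
    rintro a b (rfl | ⟨k, rfl, h⟩) (rfl | ⟨k', rfl, h'⟩)
    · left; simp
    · left; simp
    · left; simp
    · right; exact ⟨k + k', m_mul _ _ _ _, by omega⟩
  one_mem' := Or.inr ⟨0, rfl, by omega⟩
  add_mem' := by
    intro a b ha hb
    rcases add_cases a b with h | h <;> rw [h] <;> assumption
  zero_mem' := Or.inl rfl

/-- The chain generated by `(1, 0)`. -/
def A4 : Subsemiring V where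
  carrier := {v | v = 0 ∨ ∃ k, v = m k 0 ∧ 0 ≤ k}
  mul_mem' := by
    rintro a b (rfl | ⟨k, rfl, h⟩) (rfl | ⟨k', rfl, h'⟩)
    · left; simp
    · left; simp
    · left; simp
    · right; exact ⟨k + k', m_mul _ _ _ _, by omega⟩
  one_mem' := Or.inr ⟨0, rfl, by omega⟩
  add_mem' := by
    intro a b ha hb
    rcases add_cases a b with h | h <;> rw [h] <;> assumption
  zero_mem' := Or.inl rfl

/-- The two element chain. -/
def A0 : Subsemiring V where
  carrier := {v | v = 0 ∨ v = 1}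
  mul_mem' := by
    rintro a b (rfl | rfl) (rfl | rfl) <;> simp
  one_mem' := Or.inr rfl
  add_mem' := by
    intro a b ha hb
    rcases add_cases a b with h | h <;> rw [h] <;> assumption
  zero_mem' := Or.inl rfl

/-- The chain generated by `(0, 1)`. -/
def Zs : Subsemiring V where
  carrier := {v | v = 0 ∨ ∃ l, v = m 0 l ∧ 0 ≤ l}
  mul_mem' := by
    rintro a b (rfl | ⟨k, rfl, h⟩) (rfl | ⟨k', rfl, h'⟩)
    · left; simp
    · left; simp
    · left; simp
    · right; exact ⟨k + k', m_mul _ _ _ _, by omega⟩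
  one_mem' := Or.inr ⟨0, rfl, by omega⟩
  add_mem' := by
    intro a b ha hb
    rcases add_cases a b with h | h <;> rw [h] <;> assumption
  zero_mem' := Or.inl rfl

lemma mem_Vp {v : V} : v ∈ Vp ↔ v = 0 ∨ ∃ k l, v = m k l ∧ (0 < k ∨ (k = 0 ∧ 0 ≤ l)) := Iff.rfl
lemma mem_A1 {v : V} : v ∈ A1 ↔ v = 0 ∨ ∃ k, v = m k k ∧ 0 ≤ k := Iff.rfl
lemma mem_A4 {v : V} : v ∈ A4 ↔ v = 0 ∨ ∃ k, v = m k 0 ∧ 0 ≤ k := Iff.rfl
lemma mem_A0 {v : V} : v ∈ A0 ↔ v = 0 ∨ v = 1 := Iff.rfl
lemma mem_Zs {v : V} : v ∈ Zs ↔ v = 0 ∨ ∃ l, v = m 0 l ∧ 0 ≤ l := Iff.rfl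

lemma A1_le : A1 ≤ Vp := by
  rintro v (rfl | ⟨k, rfl, h⟩)
  · exact Or.inl rfl
  · exact Or.inr ⟨k, k, rfl, by omega⟩

lemma A4_le : A4 ≤ Vp := by
  rintro v (rfl | ⟨k, rfl, h⟩)
  · exact Or.inl rfl
  · exact Or.inr ⟨k, 0, rfl, by omega⟩

lemma Zs_le : Zs ≤ Vp := by
  rintro v (rfl | ⟨k, rfl, h⟩)
  · exact Or.inl rfl
  · exact Or.inr ⟨0, k, rfl, by omega⟩

lemma A0_le : A0 ≤ Vp := by
  rintro v (rfl | rfl)
  · exact Vp.zero_mem
  · exact Vp.one_mem

lemma A0_le_Zs : A0 ≤ Zs := by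
  rintro v (rfl | rfl)
  · exact Zs.zero_mem
  · exact Zs.one_mem

lemma add_one_of_mem {v : V} (h : v ∈ Vp) : v + 1 = 1 := by
  rcases h with rfl | ⟨k, l, rfl, h⟩
  · simp
  · rw [one_def, m_add_iff]; omega

open Classical in
/-- The map that sends everything of positive first coordinate to `0`. -/
def th (v : V) : V := if ∃ k l, v = m k l ∧ k = 0 then v else 0

open Classical in
/-- The map that sends everything of positive first coordinate to `0`, everything else to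
`1`. -/
def pp (v : V) : V := if ∃ k l, v = m k l ∧ k = 0 then 1 else 0

@[simp] lemma th_zero : th 0 = 0 := by
  unfold th; split_ifs <;> rfl

@[simp] lemma pp_zero : pp 0 = 0 := by
  unfold pp; rw [if_neg]; rintro ⟨k, l, h, -⟩; exact m_ne_zero _ _ h.symm

lemma th_m0 (l : ℤ) : th (m 0 l) = m 0 l := by
  unfold th; rw [if_pos ⟨0, l, rfl, rfl⟩]

lemma pp_m0 (l : ℤ) : pp (m 0 l) = 1 := by
  unfold pp; rw [if_pos ⟨0, l, rfl, rfl⟩]

lemma th_m {k l : ℤ} (h : k ≠ 0) : th (m k l) = 0 := by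
  unfold th; rw [if_neg]; rintro ⟨k', l', h', rfl⟩; exact h (m_inj.1 h').1

lemma pp_m {k l : ℤ} (h : k ≠ 0) : pp (m k l) = 0 := by
  unfold pp; rw [if_neg]; rintro ⟨k', l', h', rfl⟩; exact h (m_inj.1 h').1

@[simp] lemma th_one : th 1 = 1 := th_m0 0
@[simp] lemma pp_one : pp 1 = 1 := pp_m0 0

lemma th_mem {v : V} (h : v ∈ Vp) : th v ∈ Zs := by
  rcases h with rfl | ⟨k, l, rfl, h⟩
  · simp only [th_zero]; exact Zs.zero_mem
  · by_cases hk : k = 0
    · subst hk; rw [th_m0]; exact Or.inr ⟨l, rfl, by omega⟩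
    · rw [th_m hk]; exact Zs.zero_mem

lemma pp_mem (v : V) : pp v ∈ A0 := by
  unfold pp; split_ifs
  · exact Or.inr rfl
  · exact Or.inl rfl

lemma th_mul {a b : V} (ha : a ∈ Vp) (hb : b ∈ Vp) : th (a * b) = th a * th b := by
  rcases ha with rfl | ⟨k, l, rfl, h⟩
  · simp
  rcases hb with rfl | ⟨k', l', rfl, h'⟩
  · simp
  rw [m_mul]
  by_cases hk : k = 0
  · by_cases hk' : k' = 0
    · subst hk; subst hk'; rw [add_zero, th_m0, th_m0, th_m0, m_mul, add_zero]
    · rw [th_m hk', mul_zero, th_m (by omega)]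
  · rw [th_m hk, zero_mul, th_m (by omega)]

lemma pp_mul {a b : V} (ha : a ∈ Vp) (hb : b ∈ Vp) : pp (a * b) = pp a * pp b := by
  rcases ha with rfl | ⟨k, l, rfl, h⟩
  · simp
  rcases hb with rfl | ⟨k', l', rfl, h'⟩
  · simp
  rw [m_mul]
  by_cases hk : k = 0
  · by_cases hk' : k' = 0
    · subst hk; subst hk'; rw [add_zero, pp_m0, pp_m0, pp_m0, mul_one]
    · rw [pp_m hk', mul_zero, pp_m (by omega)]
  · rw [pp_m hk, zero_mul, pp_m (by omega)]

lemma th_mono {a b : V} (ha : a ∈ Vp) (hb : b ∈ Vp) (h : a + b = b) : th a + th b = th b := by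
  rcases ha with rfl | ⟨k, l, rfl, ha⟩
  · simp
  rcases hb with rfl | ⟨k', l', rfl, hb⟩
  · rw [add_zero] at h; exact absurd h (m_ne_zero _ _)
  rw [m_add_iff] at h
  by_cases hk : k = 0
  · have hk' : k' = 0 := by omega
    subst hk; subst hk'; rw [th_m0, th_m0, m_add_iff]; exact h
  · rw [th_m hk, zero_add]

lemma pp_mono {a b : V} (ha : a ∈ Vp) (hb : b ∈ Vp) (h : a + b = b) : pp a + pp b = pp b := by
  rcases ha with rfl | ⟨k, l, rfl, ha⟩
  · simp
  rcases hb with rfl | ⟨k', l', rfl, hb⟩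
  · rw [add_zero] at h; exact absurd h (m_ne_zero _ _)
  rw [m_add_iff] at h
  by_cases hk : k = 0
  · have hk' : k' = 0 := by omega
    subst hk; subst hk'; rw [pp_m0, pp_m0, add_self']
  · rw [pp_m hk, zero_add]

lemma th_add {a b : V} (ha : a ∈ Vp) (hb : b ∈ Vp) : th (a + b) = th a + th b := by
  rcases add_cases a b with h | h
  · rw [h, add_comm (th a), th_mono hb ha (by rw [add_comm, h])]
  · rw [h, th_mono ha hb h]

lemma pp_add {a b : V} (ha : a ∈ Vp) (hb : b ∈ Vp) : pp (a + b) = pp a + pp b := by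
  rcases add_cases a b with h | h
  · rw [h, add_comm (pp a), pp_mono hb ha (by rw [add_comm, h])]
  · rw [h, pp_mono ha hb h]

lemma pp_th (v : V) : pp (th v) = pp v := by
  unfold th
  split_ifs with h
  · rfl
  · unfold pp; rw [if_neg h, if_neg]; rintro ⟨k, l, h, -⟩; exact m_ne_zero _ _ h.symm

lemma pp_of_A0 {v : V} (h : v ∈ A0) : pp v = v := by
  rcases h with rfl | rfl <;> simp

lemma pp_pp (v : V) : pp (pp v) = pp v := pp_of_A0 (pp_mem v)

lemma th_of_A1 {v : V} (h : v ∈ A1) : th v = pp v := by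
  rcases h with rfl | ⟨k, rfl, h⟩
  · simp
  · by_cases hk : k = 0
    · subst hk; rw [th_m0, pp_m0]; rfl
    · rw [th_m hk, pp_m hk]

lemma th_of_A4 {v : V} (h : v ∈ A4) : th v = pp v := by
  rcases h with rfl | ⟨k, rfl, h⟩
  · simp
  · by_cases hk : k = 0
    · subst hk; rw [th_m0, pp_m0]; rfl
    · rw [th_m hk, pp_m hk]

open Classical in
/-- The quotient. -/
def quo (a b : V) : V :=
  if h : ∃ c, a = b * c ∧ (b = 0 → c = 0) then h.choose else 0

lemma quo_spec {a b c : V} (h : a = b * c) (h' : b = 0 → c = 0) : quo a b = c := by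
  have hh : ∃ c, a = b * c ∧ (b = 0 → c = 0) := ⟨c, h, h'⟩
  unfold quo
  rw [dif_pos hh]
  have h1 := hh.choose_spec
  generalize hh.choose = d at h1
  obtain ⟨h1, h2⟩ := h1
  rcases cases b with rfl | ⟨k, l, rfl⟩
  · rw [h2 rfl, h' rfl]
  rcases cases c with rfl | ⟨k', l', rfl⟩
  · rcases cases d with rfl | ⟨k'', l'', rfl⟩
    · rfl
    · rw [h, m_mul, mul_zero] at h1; exact absurd h1.symm (m_ne_zero _ _)
  · rcases cases d with rfl | ⟨k'', l'', rfl⟩
    · rw [h, m_mul, mul_zero] at h1; exact absurd h1 (m_ne_zero _ _)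
    · rw [h, m_mul, m_mul, m_inj] at h1
      rw [m_inj]; omega

/-- A subsemiring of values closed under quotients. -/
def Closed (A : Subsemiring V) : Prop :=
  ∀ a ∈ A, ∀ b ∈ A, a + b = b → quo a b ∈ A ∧ a = b * quo a b

lemma closed_of (A : Subsemiring V)
    (h : ∀ a ∈ A, ∀ b ∈ A, a + b = b → ∃ c ∈ A, a = b * c ∧ (b = 0 → c = 0)) : Closed A := by
  intro a ha b hb hab
  obtain ⟨c, hc, h1, h2⟩ := h a ha b hb hab
  rw [quo_spec h1 h2]
  exact ⟨hc, h1⟩

lemma closed_Vp : Closed Vp := by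
  apply closed_of
  rintro a (rfl | ⟨k, l, rfl, ha⟩) b (rfl | ⟨k', l', rfl, hb⟩) h
  · exact ⟨0, Vp.zero_mem, by simp, by simp⟩
  · exact ⟨0, Vp.zero_mem, by simp, by simp⟩
  · rw [add_zero] at h; exact absurd h (m_ne_zero _ _)
  · rw [m_add_iff] at h
    refine ⟨m (k - k') (l - l'), Or.inr ⟨_, _, rfl, by omega⟩, ?_, ?_⟩
    · rw [m_mul, m_inj]; omega
    · intro h0; exact absurd h0 (m_ne_zero _ _)

lemma closed_A1 : Closed A1 := by
  apply closed_of
  rintro a (rfl | ⟨k, rfl, ha⟩) b (rfl | ⟨k', rfl, hb⟩) h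
  · exact ⟨0, A1.zero_mem, by simp, by simp⟩
  · exact ⟨0, A1.zero_mem, by simp, by simp⟩
  · rw [add_zero] at h; exact absurd h (m_ne_zero _ _)
  · rw [m_add_iff] at h
    refine ⟨m (k - k') (k - k'), Or.inr ⟨_, rfl, by omega⟩, ?_, ?_⟩
    · rw [m_mul, m_inj]; omega
    · intro h0; exact absurd h0 (m_ne_zero _ _)

lemma closed_A4 : Closed A4 := by
  apply closed_of
  rintro a (rfl | ⟨k, rfl, ha⟩) b (rfl | ⟨k', rfl, hb⟩) h
  · exact ⟨0, A4.zero_mem, by simp, by simp⟩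
  · exact ⟨0, A4.zero_mem, by simp, by simp⟩
  · rw [add_zero] at h; exact absurd h (m_ne_zero _ _)
  · rw [m_add_iff] at h
    refine ⟨m (k - k') 0, Or.inr ⟨_, rfl, by omega⟩, ?_, ?_⟩
    · rw [m_mul, m_inj]; omega
    · intro h0; exact absurd h0 (m_ne_zero _ _)

lemma closed_Zs : Closed Zs := by
  apply closed_of
  rintro a (rfl | ⟨k, rfl, ha⟩) b (rfl | ⟨k', rfl, hb⟩) h
  · exact ⟨0, Zs.zero_mem, by simp, by simp⟩
  · exact ⟨0, Zs.zero_mem, by simp, by simp⟩
  · rw [add_zero] at h; exact absurd h (m_ne_zero _ _)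
  · rw [m_add_iff] at h
    refine ⟨m 0 (k - k'), Or.inr ⟨_, rfl, by omega⟩, ?_, ?_⟩
    · rw [m_mul, m_inj]; omega
    · intro h0; exact absurd h0 (m_ne_zero _ _)

lemma closed_A0 : Closed A0 := by
  apply closed_of
  rintro a (rfl | rfl) b (rfl | rfl) h
  · exact ⟨0, A0.zero_mem, by simp, by simp⟩
  · exact ⟨0, A0.zero_mem, by simp, by simp⟩
  · rw [add_zero] at h; exact absurd h (m_ne_zero 0 0)
  · exact ⟨1, A0.one_mem, by simp, fun h => absurd h (m_ne_zero 0 0)⟩

lemma cancel {a b c : V} (hc : c ≠ 0) (h : a * c + b * c = b * c) : a + b = b := by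
  rcases cases c with rfl | ⟨k, l, rfl⟩
  · exact absurd rfl hc
  rcases cases a with rfl | ⟨k', l', rfl⟩
  · simp
  rcases cases b with rfl | ⟨k'', l'', rfl⟩
  · rw [zero_mul, add_zero, m_mul] at h; exact absurd h (m_ne_zero _ _)
  rw [m_mul, m_mul, m_add_iff] at h
  rw [m_add_iff]; omega

end

end Pool.Agent.Helper455.Bez
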