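import Pool.Agent.Helper455.Bez.Gen

/-!
The content map of a representation.
-/

namespace Pool.Agent.Helper455.Bez

open Ideal

/-- A content map from a ring to a semiring. -/
structure Content {R S : Type*} [CommRing R] [CommSemiring S] (c : R → S) : Prop where
  mul : ∀ x y, c (x * y) = c x * c y
  add : ∀ x y, c (x + y) + (c x + c y) = c x + c y
  zero : c 0 = 0
  dvd : ∀ x y, c x + c y = c y → ∃ z, x = y * z
  surj : ∀ s : S, ∃ t : Finset R, s = ∑ y ∈ t, c y

lemma finset_sup_span {S ι : Type*} [CommSemiring S] (hS : Good S) (t : Finset ι) (f : ι → S) :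
    t.sup (fun y => (span {f y} : Ideal S)) = span {∑ y ∈ t, f y} := by
  classical
  induction t using Finset.induction_on with
  | empty => simp
  | insert a t ha ih =>
    rw [Finset.sup_insert, ih, Finset.sum_insert ha, hS.span_sup]

lemma span_finset_eq_sup {S : Type*} [CommSemiring S] (t : Finset S) :
    (span (t : Set S) : Ideal S) = t.sup (fun y => span {y}) := by
  classical
  induction t using Finset.induction_on with
  | empty => simp
  | insert a t ha ih =>
    rw [Finset.sup_insert, ← ih, Finset.coe_insert, ← Set.singleton_union, span_union]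

lemma compact_iso {α β : Type*} [CompleteLattice α] [CompleteLattice β] (f : α ≃o β) {k : α}
    (h : IsCompactElement k) : IsCompactElement (f k) := by
  classical
  rw [CompleteLattice.isCompactElement_iff_exists_le_sSup_of_le_sSup] at h ⊢
  intro s hs
  have h1 : k ≤ sSup (f.symm '' s) := by
    rw [sSup_image, ← OrderIso.map_sSup, OrderIso.le_symm_apply]
    exact hs
  obtain ⟨t, ht, hle⟩ := h _ h1
  refine ⟨t.image f, ?_, ?_⟩
  · intro b hb
    rw [Finset.coe_image] at hb
    obtain ⟨a, ha, rfl⟩ := hb
    obtain ⟨b, hb, rfl⟩ := ht ha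
    rwa [OrderIso.apply_symm_apply]
  · have h2 := f.monotone hle
    refine h2.trans ?_
    rw [map_finset_sup, Finset.sup_image]
    rfl

lemma exists_content {R S : Type*} [CommRing R] [CommSemiring S] (hS : Good S)
    (e : Ideal S ≃o Ideal R) (he : ∀ a b : Ideal S, e (a * b) = e a * e b) :
    ∃ c : R → S, Content c := by
  classical
  have hcomp : ∀ y : R, ∃ s : S, e (span {s}) = span {y} := by
    intro y
    have h1 : IsCompactElement (span {y} : Ideal R) :=
      (Submodule.fg_iff_compact _).1 ⟨{y}, by simp⟩
    have h2 := compact_iso e.symm h1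
    obtain ⟨t, ht⟩ := (Submodule.fg_iff_compact _).2 h2
    refine ⟨∑ y ∈ t, y, ?_⟩
    rw [← finset_sup_span hS t (fun y => y), ← span_finset_eq_sup]
    change e (Submodule.span S (t : Set S)) = _
    rw [ht, OrderIso.apply_symm_apply]
  choose c hc using hcomp
  have hc' : ∀ y, span {c y} = e.symm (span {y}) := fun y => by
    rw [← hc y, OrderIso.symm_apply_apply]
  refine ⟨c, ⟨?_, ?_, ?_, ?_, ?_⟩⟩
  · intro x y
    apply hS.span_inj
    apply e.injective
    rw [hc, ← span_singleton_mul_span_singleton, ← span_singleton_mul_span_singleton, he, hc, hc]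
  · intro x y
    rw [← hS.mem_span_iff, ← span_singleton_le_iff_mem, ← hS.span_sup, ← e.le_iff_le,
      OrderIso.map_sup, hc, hc, hc, span_singleton_le_iff_mem]
    exact Ideal.add_mem _ (Ideal.mem_sup_left (mem_span_singleton_self x))
      (Ideal.mem_sup_right (mem_span_singleton_self y))
  · apply hS.span_inj
    apply e.injective
    rw [hc]
    simp
  · intro x y h
    rw [← hS.mem_span_iff, ← span_singleton_le_iff_mem, ← e.le_iff_le, hc, hc,
      span_singleton_le_iff_mem, mem_span_singleton] at h
    exact h
  · intro s
    have h1 : IsCompactElement (span {s} : Ideal S) :=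
      (Submodule.fg_iff_compact _).1 ⟨{s}, by simp⟩
    have h2 := compact_iso e h1
    obtain ⟨t, ht⟩ := (Submodule.fg_iff_compact _).2 h2
    refine ⟨t, ?_⟩
    apply hS.span_inj
    rw [← finset_sup_span hS t c]
    simp_rw [hc']
    have h3 := map_finset_sup e.symm t (fun y => (span {y} : Ideal R))
    rw [← span_finset_eq_sup] at h3
    have h4 : e.symm (span (t : Set R)) = span {s} := by
      change e.symm (Submodule.span R (t : Set R)) = _
      rw [ht, OrderIso.symm_apply_apply]
    rw [← h4, h3]
    rfl

end Pool.Agent.Helper455.Bez
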