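import Mathlib

/-!
Multiplicative lattices, principal and compact elements, r-lattices, the weak union
condition and representability (problem MP_173d24_al).
-/

namespace Pool.Agent.Helper455.Bez

universe u v

section Defs

variable {L : Type u} [CompleteLattice L] [CommMonoid L]

/-- A multiplicative lattice: a complete lattice with a commutative, associative
multiplication that distributes over arbitrary joins and whose identity is the
greatest element. -/
structure IsMultLattice (L : Type u) [CompleteLattice L] [CommMonoid L] : Prop where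
  one_eq_top : (1 : L) = ⊤
  mul_sSup : ∀ (a : L) (s : Set L), a * sSup s = sSup ((fun b => a * b) '' s)

/-- The residual `A : B`, the join of all `X` with `X * B ≤ A`. -/
def res (A B : L) : L := sSup {X | X * B ≤ A}

/-- Principal elements. -/
def IsPrin (E : L) : Prop :=
  (∀ A B : L, A ⊓ B * E = (res A E ⊓ B) * E) ∧
  (∀ A B : L, A ⊔ res B E = res (A * E ⊔ B) E)

/-- Compact elements. -/
def IsComp (E : L) : Prop :=
  ∀ s : Set L, E ≤ sSup s → ∃ t : Finset L, (t : Set L) ⊆ s ∧ E ≤ sSup (t : Set L)

/-- An r-lattice: a modular multiplicative lattice that is principally generated and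
compactly generated and whose greatest element is compact. -/
structure IsRLattice (L : Type u) [CompleteLattice L] [CommMonoid L] : Prop where
  mult : IsMultLattice L
  modular : ∀ a b c : L, a ≤ c → (a ⊔ b) ⊓ c = a ⊔ (b ⊓ c)
  prin_gen : ∀ A : L, ∃ s : Set L, (∀ E ∈ s, IsPrin E) ∧ sSup s = A
  comp_gen : ∀ A : L, ∃ s : Set L, (∀ E ∈ s, IsComp E) ∧ sSup s = A
  comp_top : IsComp (⊤ : L)

/-- Distributivity of the lattice. -/
def Distributive (L : Type u) [Lattice L] : Prop :=
  ∀ a b c : L, a ⊓ (b ⊔ c) = (a ⊓ b) ⊔ (a ⊓ c)

/-- The weak union condition. -/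
def WeakUnion (L : Type u) [CompleteLattice L] [CommMonoid L] : Prop :=
  ∀ A B C : L, ¬ A ≤ B → ¬ A ≤ C → ∃ E : L, IsPrin E ∧ E ≤ A ∧ ¬ E ≤ B ∧ ¬ E ≤ C

/-- `L` is isomorphic, as a multiplicative lattice, to the lattice of all ideals of a
commutative ring with identity (in the universe `v`). -/
def Representable (L : Type u) [CompleteLattice L] [CommMonoid L] : Prop :=
  ∃ (R : Type v) (_ : CommRing R) (e : L ≃o Ideal R), ∀ a b : L, e (a * b) = e a * e b

end Defs

end Pool.Agent.Helper455.Bez
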