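import Pool.Agent.Helper455.Bez.SecGood
import Pool.Agent.Helper455.Bez.Content

/-!
Evaluation of contents at points.
-/

namespace Pool.Agent.Helper455.Bez

open Classical

noncomputable section

variable {I : Type}

lemma Supp.mul {F : Finset I} {s t : Amb I} (vs : Val s) (vt : Val t) (hs : Supp F s)
    (ht : Supp F t) : Supp F (s * t) where
  x := by
    intro a b c d
    show s.1 a b c d * t.1 a b c d = s.1 _ _ _ _ * t.1 _ _ _ _
    rw [hs.x a b c d, ht.x a b c d]
  z := by
    intro i j l hn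
    show s.2.1 i j l * t.2.1 i j l = if _ then th (s.1 _ _ _ _ * t.1 _ _ _ _)
      else pp (s.1 _ _ _ _ * t.1 _ _ _ _)
    rw [hs.z i j l hn, ht.z i j l hn,
      th_mul (X_le _ _ _ _ (vs.x _ _ _ _)) (X_le _ _ _ _ (vt.x _ _ _ _)),
      pp_mul (X_le _ _ _ _ (vs.x _ _ _ _)) (X_le _ _ _ _ (vt.x _ _ _ _))]
    split_ifs <;> rfl
  p := by
    intro i j k l hn
    show s.2.2 i j k l * t.2.2 i j k l = if _ then pp (s.2.1 _ _ _ * t.2.1 _ _ _)
      else pp (s.1 _ _ _ _ * t.1 _ _ _ _)
    rw [hs.p i j k l hn, ht.p i j k l hn,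
      pp_mul (Zs_le (vs.z _ _ _)) (Zs_le (vt.z _ _ _)),
      pp_mul (X_le _ _ _ _ (vs.x _ _ _ _)) (X_le _ _ _ _ (vt.x _ _ _ _))]
    split_ifs <;> rfl

/-- The section with given first component and zero free data. -/
def mkS (F : Finset I) (x : Option I → Option I → Option I → Option I → V)
    (hx : ∀ a b c d, x a b c d ∈ X a b c d)
    (hs : ∀ a b c d, x a b c d = x (rs F a) (rs F b) (rs F c) (rs F d)) : Sec I :=
  ⟨ext F x (fun _ _ _ => 0) (fun _ _ _ _ => 0),
    ext_val hx (fun _ _ _ => Zs.zero_mem) (fun _ _ _ _ => A0.zero_mem), F, ext_supp hs⟩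

lemma sum_cases {ι : Type*} (t : Finset ι) (f : ι → V) :
    ∑ y ∈ t, f y = 0 ∨ ∃ y ∈ t, f y = ∑ y ∈ t, f y := by
  induction t using Finset.induction_on with
  | empty => left; simp
  | insert a t ha ih =>
    rw [Finset.sum_insert ha]
    rcases add_cases (f a) (∑ y ∈ t, f y) with h | h
    · right; exact ⟨a, Finset.mem_insert_self _ _, h.symm⟩
    · rw [h]
      rcases ih with h0 | ⟨y, hy, hy2⟩
      · left; exact h0
      · right; exact ⟨y, Finset.mem_insert_of_mem hy, hy2⟩

/-- The coordinate homomorphism. -/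
def chi (a b c d : Option I) : Sec I →+* V where
  toFun s := s.1.1 a b c d
  map_one' := rfl
  map_mul' _ _ := rfl
  map_zero' := rfl
  map_add' _ _ := rfl

variable {R : Type*} [CommRing R] {c : R → Sec I} (hc : Content c)
include hc

lemma pick (s : Sec I) (a b e d : Option I) :
    ∃ y : R, c y + s = s ∧ (c y).1.1 a b e d = s.1.1 a b e d := by
  obtain ⟨t, ht⟩ := hc.surj s
  have h1 : s.1.1 a b e d = ∑ y ∈ t, (c y).1.1 a b e d := by
    have := congrArg (chi a b e d) ht
    rw [map_sum] at this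
    exact this
  rcases sum_cases t (fun y => (c y).1.1 a b e d) with h | ⟨y, hy, hy2⟩
  · refine ⟨0, ?_, ?_⟩
    · rw [hc.zero, zero_add]
    · rw [hc.zero, h1, h]; rfl
  · refine ⟨y, ?_, ?_⟩
    · rw [ht, ← Finset.add_sum_erase t c hy]
      exact good_Sec.le_add_left _ _
    · rw [h1, hy2]

lemma c_sub (x y : R) : c (x - y) + (c x + c y) = c x + c y := by
  have h1 : x - y = x + (-1) * y := by ring
  have h2 := hc.add x ((-1) * y)
  rw [← h1, hc.mul] at h2
  have h3 : c (-1) * c y + c y = c y := by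
    rw [mul_comm]; exact good_Sec.mul_le _ _
  have hle : c (x - y) + ((c x + c (-1) * c y) + c y) = (c x + c (-1) * c y) + c y := by
    rw [← add_assoc, h2]
  rw [add_assoc (c x), h3] at hle
  exact hle

lemma div (y1 y2 : R) (a b e d : Option I)
    (h : (c y1).1.1 a b e d + (c y2).1.1 a b e d = (c y2).1.1 a b e d) :
    ∃ u v : R, (c u).1.1 a b e d = 1 ∧ u * y1 = y2 * v := by
  obtain ⟨G, hG1, hG2⟩ := common (c y1) (c y2)
  set K : Finset I := G ∪ (a.toFinset ∪ b.toFinset ∪ e.toFinset ∪ d.toFinset) with hK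
  have hK1 := hG1.mono (Finset.subset_union_left
    (s₂ := a.toFinset ∪ b.toFinset ∪ e.toFinset ∪ d.toFinset)) (c y1).2.1
  have hK2 := hG2.mono (Finset.subset_union_left
    (s₂ := a.toFinset ∪ b.toFinset ∪ e.toFinset ∪ d.toFinset)) (c y2).2.1
  rw [← hK] at hK1 hK2
  have hidem : ∀ o : Option I, rs K (rs K o) = rs K o := fun o => rs_rs (Finset.Subset.refl _) o
  let x : Option I → Option I → Option I → Option I → V := fun a' b' e' d' =>
    if rs K a' = a ∧ rs K b' = b ∧ rs K e' = e ∧ rs K d' = d then 1 else 0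
  have hx : ∀ a' b' e' d', x a' b' e' d' ∈ X a' b' e' d' := by
    intro a' b' e' d'
    show (if _ then (1 : V) else 0) ∈ _
    split_ifs
    · exact one_mem _
    · exact zero_mem _
  have hs : ∀ a' b' e' d', x a' b' e' d' = x (rs K a') (rs K b') (rs K e') (rs K d') := by
    intro a' b' e' d'
    show (if _ then (1 : V) else 0) = if _ then (1 : V) else 0
    rw [hidem, hidem, hidem, hidem]
  have ra : rs K a = a := by
    cases a with
    | none => rfl
    | some i => apply rs_mem; simp [hK]
  have rb : rs K b = b := by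
    cases b with
    | none => rfl
    | some i => apply rs_mem; simp [hK]
  have re : rs K e = e := by
    cases e with
    | none => rfl
    | some i => apply rs_mem; simp [hK]
  have rd : rs K d = d := by
    cases d with
    | none => rfl
    | some i => apply rs_mem; simp [hK]
  let s : Sec I := mkS K x hx hs
  have hs1 : s.1.1 a b e d = 1 := by
    show (if _ then (1 : V) else 0) = 1
    rw [if_pos ⟨ra, rb, re, rd⟩]
  have hsupp : Supp K s.1 := ext_supp hs
  have hle : s * c y1 + c y2 = c y2 := by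
    apply Subtype.ext
    refine le_of_supp (s * c y1).2.1 (c y2).2.1 (hsupp.mul s.2.1 (c y1).2.1 hK1) hK2 ?_ ?_ ?_
    · intro a' b' e' d'
      show x a' b' e' d' * (c y1).1.1 a' b' e' d' + _ = _
      show (if _ then (1 : V) else 0) * (c y1).1.1 a' b' e' d' + _ = _
      split_ifs with hcond
      · obtain ⟨h1, h2, h3, h4⟩ := hcond
        rw [hK1.x a' b' e' d', hK2.x a' b' e' d', h1, h2, h3, h4, one_mul]
        exact h
      · rw [zero_mul, zero_add]
    · intro i j l hn
      show (if _ then (0 : V) else _) * _ + _ = _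
      rw [if_pos hn, zero_mul, zero_add]
    · intro i j k l hn
      show (if _ then (0 : V) else _) * _ + _ = _
      rw [if_pos hn, zero_mul, zero_add]
  obtain ⟨u, hu1, hu2⟩ := pick hc s a b e d
  rw [hs1] at hu2
  have hle2 : c (u * y1) + c y2 = c y2 := by
    rw [hc.mul]
    have e1 : c u * c y1 + s * c y1 = s * c y1 := by rw [← add_mul, hu1]
    calc c u * c y1 + c y2 = c u * c y1 + (s * c y1 + c y2) := by rw [hle]
      _ = (c u * c y1 + s * c y1) + c y2 := by ring
      _ = c y2 := by rw [e1, hle]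
  obtain ⟨v, hv⟩ := hc.dvd _ _ hle2
  exact ⟨u, v, hu2, hv⟩

end

end Pool.Agent.Helper455.Bez
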