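import Pool.Agent.Helper455.Bez.Defs

/-!
Ideals of a commutative semiring in which every element divides everything below it.
-/

namespace Pool.Agent.Helper455.Bez

open Ideal

/-- The three axioms used: `1` is the top, divisibility, and weak cancellation. -/
structure Good (S : Type*) [CommSemiring S] : Prop where
  top : ∀ c : S, c + 1 = 1
  dvd : ∀ a b : S, a + b = b → ∃ c, a = b * c
  wc : ∀ a b c : S, a * c + b * c = b * c → ∃ d, d * c = 0 ∧ a + (b + d) = b + d

namespace Good

variable {S : Type*} [CommSemiring S] (hS : Good S)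
include hS

lemma add_self (a : S) : a + a = a := by
  have := hS.top 1
  calc a + a = a * (1 + 1) := by ring
    _ = a := by rw [this, mul_one]

lemma mul_le (a c : S) : a * c + a = a := by
  calc a * c + a = a * (c + 1) := by ring
    _ = a := by rw [hS.top, mul_one]

lemma mem_of_le {A : Ideal S} {a b : S} (h : a + b = b) (hb : b ∈ A) : a ∈ A := by
  obtain ⟨c, rfl⟩ := hS.dvd a b h
  exact A.mul_mem_right c hb

lemma le_add_left (a b : S) : a + (a + b) = a + b := by
  rw [← add_assoc, hS.add_self]

lemma le_add_right (a b : S) : b + (a + b) = a + b := by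
  rw [add_comm a b, ← add_assoc, hS.add_self]

lemma mem_left_of_add_mem {A : Ideal S} {a b : S} (h : a + b ∈ A) : a ∈ A :=
  hS.mem_of_le (hS.le_add_left a b) h

lemma mem_right_of_add_mem {A : Ideal S} {a b : S} (h : a + b ∈ A) : b ∈ A :=
  hS.mem_of_le (hS.le_add_right a b) h

lemma mem_span_iff {a b : S} : a ∈ span {b} ↔ a + b = b := by
  rw [mem_span_singleton']
  constructor
  · rintro ⟨c, rfl⟩
    rw [mul_comm]; exact hS.mul_le b c
  · intro h
    obtain ⟨c, hc⟩ := hS.dvd a b h
    exact ⟨c, by rw [hc, mul_comm]⟩

lemma span_inj {a b : S} (h : span {a} = span {b}) : a = b := by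
  have h1 : a + b = b := hS.mem_span_iff.1 (h ▸ mem_span_singleton_self a)
  have h2 : b + a = a := hS.mem_span_iff.1 (h ▸ mem_span_singleton_self b)
  rw [← h2, add_comm, h1]

lemma span_sup (a b : S) : span {a} ⊔ span {b} = span {a + b} := by
  apply le_antisymm
  · rw [sup_le_iff, span_singleton_le_iff_mem, span_singleton_le_iff_mem]
    exact ⟨hS.mem_span_iff.2 (hS.le_add_left a b), hS.mem_span_iff.2 (hS.le_add_right a b)⟩
  · rw [span_singleton_le_iff_mem]
    exact Ideal.add_mem _ (Ideal.mem_sup_left (mem_span_singleton_self a))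
      (Ideal.mem_sup_right (mem_span_singleton_self b))

lemma isPrin (e : S) : IsPrin (span {e} : Ideal S) := by
  have hres : ∀ (A : Ideal S) (x : S), x ∈ res A (span {e}) ↔ x * e ∈ A := by
    intro A x
    constructor
    · intro hx
      have : res A (span {e}) * span {e} ≤ A := by
        unfold res
        rw [sSup_eq_iSup', Submodule.iSup_mul]
        exact iSup_le fun X => X.2
      exact this (Ideal.mul_mem_mul hx (mem_span_singleton_self e))
    · intro hx
      have : span {x} ≤ res A (span {e}) := by
        apply le_sSup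
        show span {x} * span {e} ≤ A
        rw [span_singleton_mul_span_singleton, span_singleton_le_iff_mem]
        exact hx
      exact this (mem_span_singleton_self x)
  constructor
  · intro A B
    apply le_antisymm
    · rintro x ⟨hxA, hxB⟩
      have hxB' : x ∈ span {e} * B := by rw [mul_comm]; exact hxB
      rw [mem_span_singleton_mul] at hxB'
      obtain ⟨b, hb, rfl⟩ := hxB'
      rw [mul_comm e b]
      apply Ideal.mul_mem_mul _ (mem_span_singleton_self e)
      refine ⟨(hres A b).2 ?_, hb⟩
      rw [mul_comm]; exact hxA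
    · rw [Ideal.mul_le]
      rintro r ⟨hr1, hr2⟩ s hs
      refine ⟨?_, Ideal.mul_mem_mul hr2 hs⟩
      obtain ⟨c, rfl⟩ := mem_span_singleton'.1 hs
      have := (hres A r).1 hr1
      have h2 : r * (c * e) = c * (r * e) := by ring
      rw [h2]
      exact A.mul_mem_left c this
  · intro A B
    apply le_antisymm
    · rw [sup_le_iff]
      constructor
      · intro x hx
        rw [hres]
        exact Ideal.mem_sup_left (Ideal.mul_mem_mul hx (mem_span_singleton_self e))
      · intro x hx
        rw [hres] at hx ⊢
        exact Ideal.mem_sup_right hx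
    · intro x hx
      rw [hres] at hx
      obtain ⟨y, hy, b, hb, hyb⟩ := Submodule.mem_sup.1 hx
      have hy' : y ∈ span {e} * A := by rw [mul_comm]; exact hy
      rw [mem_span_singleton_mul] at hy'
      obtain ⟨a, ha, rfl⟩ := hy'
      -- e * a + b = x * e
      have hb1 : b + x * e = x * e := by rw [← hyb]; exact hS.le_add_right _ _
      obtain ⟨u, hu⟩ := hS.dvd _ _ hb1
      have hwc : x * e + (a + x * u) * e = (a + x * u) * e := by
        have : (a + x * u) * e = x * e := by rw [← hyb, hu]; ring
        rw [this, hS.add_self]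
      obtain ⟨d, hd, hle⟩ := hS.wc _ _ _ hwc
      obtain ⟨w, hw⟩ := hS.dvd _ _ hle
      have hx' : x = a * w + (x * u * w + d * w) := by
        conv_lhs => rw [hw]
        ring
      rw [hx']
      apply Ideal.add_mem
      · exact Ideal.mem_sup_left (A.mul_mem_right w ha)
      · apply Ideal.mem_sup_right
        rw [hres]
        have : (x * u * w + d * w) * e = w * b + w * (d * e) := by rw [hu]; ring
        rw [this, hd, mul_zero, add_zero]
        exact B.mul_mem_left w hb

lemma distrib : Distributive (Ideal S) := by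
  intro A B C
  apply le_antisymm
  · rintro x ⟨hxA, hx⟩
    obtain ⟨b, hb, c, hc, rfl⟩ := Submodule.mem_sup.1 hx
    exact Ideal.add_mem _ (Ideal.mem_sup_left ⟨hS.mem_left_of_add_mem hxA, hb⟩)
      (Ideal.mem_sup_right ⟨hS.mem_right_of_add_mem hxA, hc⟩)
  · exact le_inf_sup

omit hS in
lemma sSup_span (A : Ideal S) : sSup {E : Ideal S | ∃ x ∈ A, E = span {x}} = A := by
  apply le_antisymm
  · apply sSup_le
    rintro E ⟨x, hx, rfl⟩
    rwa [span_singleton_le_iff_mem]
  · intro x hx
    have : span {x} ≤ sSup {E : Ideal S | ∃ x ∈ A, E = span {x}} := le_sSup ⟨x, hx, rfl⟩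
    exact this (mem_span_singleton_self x)

omit hS in
lemma isComp_span (x : S) : IsComp (span {x} : Ideal S) := by
  have h : (span {x} : Ideal S).FG := ⟨{x}, by simp⟩
  have h2 := (Submodule.fg_iff_compact (span {x} : Ideal S)).1 h
  intro s hs
  have h3 := CompleteLattice.isCompactElement_iff_exists_le_sSup_of_le_sSup _ _ |>.1 h2 s hs
  obtain ⟨t, ht, hle⟩ := h3
  refine ⟨t, ht, ?_⟩
  exact hle.trans (Finset.sup_le fun b hb => le_sSup hb)

lemma isRLattice : IsRLattice (Ideal S) where
  mult := {
    one_eq_top := Ideal.one_eq_top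
    mul_sSup := by
      intro a s
      rw [sSup_eq_iSup, Submodule.mul_iSup]
      simp_rw [Submodule.mul_iSup]
      rw [sSup_image] }
  modular := by
    intro a b c hac
    rw [inf_comm, hS.distrib c a b, inf_eq_right.2 hac, inf_comm c b]
  prin_gen := by
    intro A
    refine ⟨{E | ∃ x ∈ A, E = span {x}}, ?_, sSup_span A⟩
    rintro E ⟨x, -, rfl⟩
    exact hS.isPrin x
  comp_gen := by
    intro A
    refine ⟨{E | ∃ x ∈ A, E = span {x}}, ?_, sSup_span A⟩
    rintro E ⟨x, -, rfl⟩
    exact isComp_span x
  comp_top := by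
    have := isComp_span (1 : S)
    rwa [span_singleton_one] at this

lemma weakUnion : WeakUnion (Ideal S) := by
  intro A B C hB hC
  obtain ⟨b, hbA, hbB⟩ := Set.not_subset.1 hB
  obtain ⟨c, hcA, hcC⟩ := Set.not_subset.1 hC
  refine ⟨span {b + c}, hS.isPrin _, ?_, ?_, ?_⟩
  · rw [span_singleton_le_iff_mem]
    exact A.add_mem hbA hcA
  · rw [span_singleton_le_iff_mem]
    intro h
    exact hbB (hS.mem_left_of_add_mem h)
  · rw [span_singleton_le_iff_mem]
    intro h
    exact hcC (hS.mem_right_of_add_mem h)

end Good

end Pool.Agent.Helper455.Bez
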