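import Pool.Agent.Helper455.Bez.Gen

/-!
Sanity check: the definitions are satisfied by the ideal lattices of commutative rings.
-/

namespace Pool.Agent.Helper455.Bez

open Ideal

universe u

lemma ring_isPrin {R : Type u} [CommRing R] (e : R) : IsPrin (span {e} : Ideal R) := by
  have hres : ∀ (A : Ideal R) (x : R), x ∈ res A (span {e}) ↔ x * e ∈ A := by
    intro A x
    constructor
    · intro hx
      have : res A (span {e}) * span {e} ≤ A := by
        unfold res
        rw [sSup_eq_iSup', Submodule.iSup_mul]
        exact iSup_le fun X => X.2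
      exact this (Ideal.mul_mem_mul hx (mem_span_singleton_self e))
    · intro hx
      have : span {x} ≤ res A (span {e}) := by
        apply le_sSup
        show span {x} * span {e} ≤ A
        rw [span_singleton_mul_span_singleton, span_singleton_le_iff_mem]
        exact hx
      exact this (mem_span_singleton_self x)
  constructor
  · intro A B
    apply le_antisymm
    · rintro x ⟨hxA, hxB⟩
      have hxB' : x ∈ span {e} * B := by rw [mul_comm]; exact hxB
      rw [mem_span_singleton_mul] at hxB'
      obtain ⟨b, hb, rfl⟩ := hxB'
      rw [mul_comm e b]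
      apply Ideal.mul_mem_mul _ (mem_span_singleton_self e)
      refine ⟨(hres A b).2 ?_, hb⟩
      rw [mul_comm]; exact hxA
    · rw [Ideal.mul_le]
      rintro r ⟨hr1, hr2⟩ s hs
      refine ⟨?_, Ideal.mul_mem_mul hr2 hs⟩
      obtain ⟨c, rfl⟩ := mem_span_singleton'.1 hs
      have := (hres A r).1 hr1
      have h2 : r * (c * e) = c * (r * e) := by ring
      rw [h2]
      exact A.mul_mem_left c this
  · intro A B
    apply le_antisymm
    · rw [sup_le_iff]
      constructor
      · intro x hx
        rw [hres]
        exact Ideal.mem_sup_left (Ideal.mul_mem_mul hx (mem_span_singleton_self e))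
      · intro x hx
        rw [hres] at hx ⊢
        exact Ideal.mem_sup_right hx
    · intro x hx
      rw [hres] at hx
      obtain ⟨y, hy, b, hb, hyb⟩ := Submodule.mem_sup.1 hx
      have hy' : y ∈ span {e} * A := by rw [mul_comm]; exact hy
      rw [mem_span_singleton_mul] at hy'
      obtain ⟨a, ha, rfl⟩ := hy'
      have hx' : x = a + (x - a) := by ring
      rw [hx']
      apply Ideal.add_mem _ (Ideal.mem_sup_left ha)
      apply Ideal.mem_sup_right
      rw [hres]
      have : (x - a) * e = b := by linear_combination -hyb
      rw [this]; exact hb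

/-- The ideal lattice of a commutative ring is an r-lattice. -/
theorem ring_isRLattice (R : Type u) [CommRing R] : IsRLattice (Ideal R) where
  mult := {
    one_eq_top := Ideal.one_eq_top
    mul_sSup := by
      intro a s
      rw [sSup_eq_iSup, Submodule.mul_iSup]
      simp_rw [Submodule.mul_iSup]
      rw [sSup_image] }
  modular := by
    intro a b c hac
    exact sup_inf_assoc_of_le b hac
  prin_gen := by
    intro A
    refine ⟨{E | ∃ x ∈ A, E = span {x}}, ?_, Good.sSup_span A⟩
    rintro E ⟨x, -, rfl⟩
    exact ring_isPrin x
  comp_gen := by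
    intro A
    refine ⟨{E | ∃ x ∈ A, E = span {x}}, ?_, Good.sSup_span A⟩
    rintro E ⟨x, -, rfl⟩
    exact Good.isComp_span x
  comp_top := by
    have := Good.isComp_span (1 : R)
    rwa [span_singleton_one] at this

/-- The ideal lattice of a commutative ring satisfies the weak union condition. -/
theorem ring_weakUnion (R : Type u) [CommRing R] : WeakUnion (Ideal R) := by
  intro A B C hB hC
  obtain ⟨b, hbA, hbB⟩ := Set.not_subset.1 hB
  obtain ⟨c, hcA, hcC⟩ := Set.not_subset.1 hC
  have key : ∀ x : R, x ∈ A → x ∉ B → x ∉ C →
      ∃ E : Ideal R, IsPrin E ∧ E ≤ A ∧ ¬ E ≤ B ∧ ¬ E ≤ C := by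
    intro x h1 h2 h3
    refine ⟨span {x}, ring_isPrin x, ?_, ?_, ?_⟩
    · rwa [span_singleton_le_iff_mem]
    · rwa [span_singleton_le_iff_mem]
    · rwa [span_singleton_le_iff_mem]
  by_cases h1 : b ∈ C
  · by_cases h2 : c ∈ B
    · refine key (b + c) (A.add_mem hbA hcA) ?_ ?_
      · intro h; exact hbB ((Ideal.add_mem_iff_left B h2).1 h)
      · intro h; exact hcC ((Ideal.add_mem_iff_right C h1).1 h)
    · exact key c hcA h2 hcC
  · exact key b hbA hbB h1

/-- The ideal lattice of a commutative ring is representable. -/
theorem ring_representable (R : Type u) [CommRing R] : Representable.{u, u} (Ideal R) :=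
  ⟨R, inferInstance, OrderIso.refl _, fun _ _ => rfl⟩

end Pool.Agent.Helper455.Bez
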