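import Pool.Agent.Helper455.Bez.Chain

/-!
The semiring of sections.
-/

namespace Pool.Agent.Helper455.Bez

open Classical

noncomputable section

variable {I : Type}

/-- Restriction of an index to a finite set. -/
def rs (F : Finset I) (a : Option I) : Option I := a.filter (fun i => decide (i ∈ F))

lemma rs_none (F : Finset I) : rs F none = none := rfl

lemma rs_mem {F : Finset I} {i : I} (h : i ∈ F) : rs F (some i) = some i := by
  simp [rs, h]

lemma rs_not_mem {F : Finset I} {i : I} (h : i ∉ F) : rs F (some i) = none := by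
  simp [rs, h]

lemma rs_rs {F G : Finset I} (h : F ⊆ G) (a : Option I) : rs F (rs G a) = rs F a := by
  cases a with
  | none => rfl
  | some i =>
    by_cases hi : i ∈ G
    · rw [rs_mem hi]
    · rw [rs_not_mem hi, rs_not_mem (fun hc => hi (h hc))]; rfl

/-- The allowed values at a point, depending on its type. -/
def X (a b c d : Option I) : Subsemiring V :=
  if b.isSome ∨ c.isSome ∨ (a.isSome ∧ d.isSome) then Vp
  else if a.isSome then A1 else if d.isSome then A4 else A0

lemma X_le (a b c d : Option I) : X a b c d ≤ Vp := by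
  unfold X
  split_ifs
  · exact le_rfl
  · exact A1_le
  · exact A4_le
  · exact A0_le

lemma closed_X (a b c d : Option I) : Closed (X a b c d) := by
  unfold X
  split_ifs
  · exact closed_Vp
  · exact closed_A1
  · exact closed_A4
  · exact closed_A0

lemma A0_le_X (a b c d : Option I) : A0 ≤ X a b c d := by
  have h0 : ∀ A : Subsemiring V, A0 ≤ A := by
    rintro A v (rfl | rfl)
    · exact A.zero_mem
    · exact A.one_mem
  exact h0 _

lemma th_eq_pp {a d : Option I} (h : a = none ∨ d = none) {v : V} (hv : v ∈ X a none none d) :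
    th v = pp v := by
  unfold X at hv
  rcases h with rfl | rfl
  · cases d with
    | none =>
      simp at hv
      rcases hv with rfl | rfl <;> simp
    | some d =>
      simp at hv
      exact th_of_A4 hv
  · cases a with
    | none =>
      simp at hv
      rcases hv with rfl | rfl <;> simp
    | some d =>
      simp at hv
      exact th_of_A1 hv

variable (I) in
/-- The ambient semiring. -/
abbrev Amb : Type :=
  (Option I → Option I → Option I → Option I → V) × (I → I → I → V) × (I → I → I → I → V)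

/-- The values are of the allowed kind. -/
structure Val (s : Amb I) : Prop where
  x : ∀ a b c d, s.1 a b c d ∈ X a b c d
  z : ∀ i j l, s.2.1 i j l ∈ Zs
  p : ∀ i j k l, s.2.2 i j k l ∈ A0

/-- The section is supported by the finite set `F`. -/
structure Supp (F : Finset I) (s : Amb I) : Prop where
  x : ∀ a b c d, s.1 a b c d = s.1 (rs F a) (rs F b) (rs F c) (rs F d)
  z : ∀ i j l, ¬ (i ∈ F ∧ j ∈ F ∧ l ∈ F) →
    s.2.1 i j l = if i ∈ F ∧ l ∈ F then th (s.1 (some i) (some j) none (some l))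
      else pp (s.1 (some i) (some j) none (some l))
  p : ∀ i j k l, ¬ (i ∈ F ∧ j ∈ F ∧ k ∈ F ∧ l ∈ F) →
    s.2.2 i j k l = if i ∈ F ∧ j ∈ F ∧ l ∈ F then pp (s.2.1 i j l)
      else pp (s.1 (some i) (some j) (some k) (some l))

lemma Supp.mono {F G : Finset I} (h : F ⊆ G) {s : Amb I} (hv : Val s) (hs : Supp F s) :
    Supp G s where
  x := by
    intro a b c d
    rw [hs.x a b c d, hs.x (rs G a) (rs G b) (rs G c) (rs G d), rs_rs h, rs_rs h, rs_rs h,
      rs_rs h]
  z := by
    intro i j l hG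
    have hF : ¬ (i ∈ F ∧ j ∈ F ∧ l ∈ F) := fun ⟨h1, h2, h3⟩ => hG ⟨h h1, h h2, h h3⟩
    rw [hs.z i j l hF]
    by_cases hil : i ∈ F ∧ l ∈ F
    · rw [if_pos hil, if_pos ⟨h hil.1, h hil.2⟩]
    · rw [if_neg hil]
      by_cases hil' : i ∈ G ∧ l ∈ G
      · rw [if_pos hil']
        have hj : j ∉ F := fun hj => hG ⟨hil'.1, h hj, hil'.2⟩
        have hx := hs.x (some i) (some j) none (some l)
        rw [rs_not_mem hj, rs_none] at hx
        have hmem := hv.x (rs F (some i)) none none (rs F (some l))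
        rw [← hx] at hmem
        refine (th_eq_pp ?_ hmem).symm
        by_cases hi : i ∈ F
        · right; exact rs_not_mem (fun hl => hil ⟨hi, hl⟩)
        · left; exact rs_not_mem hi
      · rw [if_neg hil']
  p := by
    intro i j k l hG
    have hF : ¬ (i ∈ F ∧ j ∈ F ∧ k ∈ F ∧ l ∈ F) :=
      fun ⟨h1, h2, h3, h4⟩ => hG ⟨h h1, h h2, h h3, h h4⟩
    rw [hs.p i j k l hF]
    by_cases hil : i ∈ F ∧ j ∈ F ∧ l ∈ F
    · rw [if_pos hil, if_pos ⟨h hil.1, h hil.2.1, h hil.2.2⟩]
    · rw [if_neg hil]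
      by_cases hil' : i ∈ G ∧ j ∈ G ∧ l ∈ G
      · rw [if_pos hil']
        have hk : k ∉ F := fun hk => hG ⟨hil'.1, hil'.2.1, h hk, hil'.2.2⟩
        rw [hs.z i j l hil]
        have hx := hs.x (some i) (some j) (some k) (some l)
        have hx' := hs.x (some i) (some j) none (some l)
        rw [rs_not_mem hk] at hx
        rw [rs_none] at hx'
        rw [hx, ← hx']
        split_ifs
        · rw [pp_th]
        · rw [pp_pp]
      · rw [if_neg hil']

variable (I) in
/-- The semiring of sections. -/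
def Sec : Subsemiring (Amb I) where
  carrier := {s | Val s ∧ ∃ F : Finset I, Supp F s}
  mul_mem' := by
    rintro s t ⟨hs, F, hF⟩ ⟨ht, G, hG⟩
    have hF' := hF.mono (Finset.subset_union_left (s₂ := G)) hs
    have hG' := hG.mono (Finset.subset_union_right (s₁ := F)) ht
    refine ⟨⟨fun a b c d => mul_mem (hs.x _ _ _ _) (ht.x _ _ _ _),
      fun i j l => mul_mem (hs.z _ _ _) (ht.z _ _ _),
      fun i j k l => mul_mem (hs.p _ _ _ _) (ht.p _ _ _ _)⟩, F ∪ G, ?_, ?_, ?_⟩
    · intro a b c d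
      show s.1 a b c d * t.1 a b c d = s.1 _ _ _ _ * t.1 _ _ _ _
      rw [hF'.x a b c d, hG'.x a b c d]
    · intro i j l h
      show s.2.1 i j l * t.2.1 i j l = if _ then th (s.1 _ _ _ _ * t.1 _ _ _ _)
        else pp (s.1 _ _ _ _ * t.1 _ _ _ _)
      rw [hF'.z i j l h, hG'.z i j l h,
        th_mul (X_le _ _ _ _ (hs.x _ _ _ _)) (X_le _ _ _ _ (ht.x _ _ _ _)),
        pp_mul (X_le _ _ _ _ (hs.x _ _ _ _)) (X_le _ _ _ _ (ht.x _ _ _ _))]
      split_ifs <;> rfl
    · intro i j k l h
      show s.2.2 i j k l * t.2.2 i j k l = if _ then pp (s.2.1 _ _ _ * t.2.1 _ _ _)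
        else pp (s.1 _ _ _ _ * t.1 _ _ _ _)
      rw [hF'.p i j k l h, hG'.p i j k l h,
        pp_mul (Zs_le (hs.z _ _ _)) (Zs_le (ht.z _ _ _)),
        pp_mul (X_le _ _ _ _ (hs.x _ _ _ _)) (X_le _ _ _ _ (ht.x _ _ _ _))]
      split_ifs <;> rfl
  add_mem' := by
    rintro s t ⟨hs, F, hF⟩ ⟨ht, G, hG⟩
    have hF' := hF.mono (Finset.subset_union_left (s₂ := G)) hs
    have hG' := hG.mono (Finset.subset_union_right (s₁ := F)) ht
    refine ⟨⟨fun a b c d => add_mem (hs.x _ _ _ _) (ht.x _ _ _ _),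
      fun i j l => add_mem (hs.z _ _ _) (ht.z _ _ _),
      fun i j k l => add_mem (hs.p _ _ _ _) (ht.p _ _ _ _)⟩, F ∪ G, ?_, ?_, ?_⟩
    · intro a b c d
      show s.1 a b c d + t.1 a b c d = s.1 _ _ _ _ + t.1 _ _ _ _
      rw [hF'.x a b c d, hG'.x a b c d]
    · intro i j l h
      show s.2.1 i j l + t.2.1 i j l = if _ then th (s.1 _ _ _ _ + t.1 _ _ _ _)
        else pp (s.1 _ _ _ _ + t.1 _ _ _ _)
      rw [hF'.z i j l h, hG'.z i j l h,
        th_add (X_le _ _ _ _ (hs.x _ _ _ _)) (X_le _ _ _ _ (ht.x _ _ _ _)),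
        pp_add (X_le _ _ _ _ (hs.x _ _ _ _)) (X_le _ _ _ _ (ht.x _ _ _ _))]
      split_ifs <;> rfl
    · intro i j k l h
      show s.2.2 i j k l + t.2.2 i j k l = if _ then pp (s.2.1 _ _ _ + t.2.1 _ _ _)
        else pp (s.1 _ _ _ _ + t.1 _ _ _ _)
      rw [hF'.p i j k l h, hG'.p i j k l h,
        pp_add (Zs_le (hs.z _ _ _)) (Zs_le (ht.z _ _ _)),
        pp_add (X_le _ _ _ _ (hs.x _ _ _ _)) (X_le _ _ _ _ (ht.x _ _ _ _))]
      split_ifs <;> rfl
  one_mem' := by
    refine ⟨⟨fun a b c d => one_mem _, fun i j l => one_mem _, fun i j k l => one_mem _⟩,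
      ∅, ?_, ?_, ?_⟩
    · intro a b c d; rfl
    · intro i j l h
      show (1 : V) = if _ then th (1 : V) else pp (1 : V)
      simp
    · intro i j k l h
      show (1 : V) = if _ then pp (1 : V) else pp (1 : V)
      simp
  zero_mem' := by
    refine ⟨⟨fun a b c d => zero_mem _, fun i j l => zero_mem _, fun i j k l => zero_mem _⟩,
      ∅, ?_, ?_, ?_⟩
    · intro a b c d; rfl
    · intro i j l h
      show (0 : V) = if _ then th (0 : V) else pp (0 : V)
      simp
    · intro i j k l h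
      show (0 : V) = if _ then pp (0 : V) else pp (0 : V)
      simp

lemma mem_Sec {s : Amb I} : s ∈ Sec I ↔ Val s ∧ ∃ F : Finset I, Supp F s := Iff.rfl

/-- Extension of free data to a section supported by `F`. -/
def ext (F : Finset I) (x : Option I → Option I → Option I → Option I → V)
    (z : I → I → I → V) (p : I → I → I → I → V) : Amb I :=
  let z' : I → I → I → V := fun i j l =>
    if i ∈ F ∧ j ∈ F ∧ l ∈ F then z i j l
    else if i ∈ F ∧ l ∈ F then th (x (some i) (some j) none (some l))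
      else pp (x (some i) (some j) none (some l))
  (x, z', fun i j k l =>
    if i ∈ F ∧ j ∈ F ∧ k ∈ F ∧ l ∈ F then p i j k l
    else if i ∈ F ∧ j ∈ F ∧ l ∈ F then pp (z' i j l)
      else pp (x (some i) (some j) (some k) (some l)))

lemma ext_val {F : Finset I} {x : Option I → Option I → Option I → Option I → V}
    {z : I → I → I → V} {p : I → I → I → I → V}
    (hx : ∀ a b c d, x a b c d ∈ X a b c d) (hz : ∀ i j l, z i j l ∈ Zs)
    (hp : ∀ i j k l, p i j k l ∈ A0) : Val (ext F x z p) where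
  x := hx
  z := by
    intro i j l
    show (if _ then _ else if _ then _ else _) ∈ Zs
    split_ifs
    · exact hz _ _ _
    · exact th_mem (X_le _ _ _ _ (hx _ _ _ _))
    · exact A0_le_Zs (pp_mem _)
  p := by
    intro i j k l
    show (if _ then _ else if _ then _ else _) ∈ A0
    split_ifs
    · exact hp _ _ _ _
    · exact pp_mem _
    · exact pp_mem _

lemma ext_supp {F : Finset I} {x : Option I → Option I → Option I → Option I → V}
    {z : I → I → I → V} {p : I → I → I → I → V}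
    (hx : ∀ a b c d, x a b c d = x (rs F a) (rs F b) (rs F c) (rs F d)) :
    Supp F (ext F x z p) where
  x := hx
  z := by
    intro i j l h
    show (if _ then _ else _) = _
    rw [if_neg h]; rfl
  p := by
    intro i j k l h
    show (if _ then _ else _) = _
    rw [if_neg h]; rfl

/-- Relations between sections can be checked on the free coordinates. -/
lemma le_of_supp {F : Finset I} {s t : Amb I} (vs : Val s) (vt : Val t) (hs : Supp F s)
    (ht : Supp F t)
    (hx : ∀ a b c d, s.1 a b c d + t.1 a b c d = t.1 a b c d)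
    (hz : ∀ i j l, i ∈ F ∧ j ∈ F ∧ l ∈ F → s.2.1 i j l + t.2.1 i j l = t.2.1 i j l)
    (hp : ∀ i j k l, i ∈ F ∧ j ∈ F ∧ k ∈ F ∧ l ∈ F →
      s.2.2 i j k l + t.2.2 i j k l = t.2.2 i j k l) : s + t = t := by
  have hz' : ∀ i j l, s.2.1 i j l + t.2.1 i j l = t.2.1 i j l := by
    intro i j l
    by_cases h : i ∈ F ∧ j ∈ F ∧ l ∈ F
    · exact hz i j l h
    · rw [hs.z i j l h, ht.z i j l h]
      split_ifs
      · exact th_mono (X_le _ _ _ _ (vs.x _ _ _ _)) (X_le _ _ _ _ (vt.x _ _ _ _)) (hx _ _ _ _)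
      · exact pp_mono (X_le _ _ _ _ (vs.x _ _ _ _)) (X_le _ _ _ _ (vt.x _ _ _ _)) (hx _ _ _ _)
  refine Prod.ext ?_ (Prod.ext ?_ ?_)
  · funext a b c d; exact hx a b c d
  · funext i j l; exact hz' i j l
  · funext i j k l
    show s.2.2 i j k l + t.2.2 i j k l = t.2.2 i j k l
    by_cases h : i ∈ F ∧ j ∈ F ∧ k ∈ F ∧ l ∈ F
    · exact hp i j k l h
    · rw [hs.p i j k l h, ht.p i j k l h]
      split_ifs
      · exact pp_mono (Zs_le (vs.z _ _ _)) (Zs_le (vt.z _ _ _)) (hz' _ _ _)
      · exact pp_mono (X_le _ _ _ _ (vs.x _ _ _ _)) (X_le _ _ _ _ (vt.x _ _ _ _)) (hx _ _ _ _)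

lemma eq_of_supp {F : Finset I} {s t : Amb I} (hs : Supp F s)
    (ht : Supp F t)
    (hx : ∀ a b c d, s.1 a b c d = t.1 a b c d)
    (hz : ∀ i j l, i ∈ F ∧ j ∈ F ∧ l ∈ F → s.2.1 i j l = t.2.1 i j l)
    (hp : ∀ i j k l, i ∈ F ∧ j ∈ F ∧ k ∈ F ∧ l ∈ F →
      s.2.2 i j k l = t.2.2 i j k l) : s = t := by
  have hz' : ∀ i j l, s.2.1 i j l = t.2.1 i j l := by
    intro i j l
    by_cases h : i ∈ F ∧ j ∈ F ∧ l ∈ F
    · exact hz i j l h
    · rw [hs.z i j l h, ht.z i j l h, hx]
  refine Prod.ext ?_ (Prod.ext ?_ ?_)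
  · funext a b c d; exact hx a b c d
  · funext i j l; exact hz' i j l
  · funext i j k l
    by_cases h : i ∈ F ∧ j ∈ F ∧ k ∈ F ∧ l ∈ F
    · exact hp i j k l h
    · rw [hs.p i j k l h, ht.p i j k l h, hz', hx]

end

end Pool.Agent.Helper455.Bez
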